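import Pool.Agent.MWK.Stmts

/-!
# Block MWK, row CVD
-/

set_option autoImplicit false

namespace Pool.Agent.MWK.H98

open Pool.Agent.Helper14_MV Pool.Agent.Helper2_MV Pool.Agent.MWK

/-- **CVD** -/
theorem cvd (cvt : CvtStmt) : CvdStmt := by
  intro cs
  induction cs with
  | nil =>
    intro k d p w A₀ B hw hp hd _ hch _ hk2
    have h1 : ∀ z ∈ p, w.count z = 1 := hch
    have h2 : w.count d = 1 := hk2 (by simp)
    have h3 : ∀ z, A₀.count z = 1 → w.count z = 1 → z ∉ B := by
      intro z h4 h5
      rw [hw, List.count_append] at h5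
      exact List.count_eq_zero.1 (by omega)
    have h4 : (∀ z ∈ p, z ∉ B) ∧ d ∉ B :=
      ⟨fun z hz => h3 z (hp z hz) (h1 z hz), h3 d hd h2⟩
    cases k with
    | zero => simpa only [Chd] using h4
    | succ k => simpa only [Chd] using h4
  | cons c cs ih =>
    intro k d p w A₀ B hw hp hd hc hch hk1 hk2
    obtain ⟨h1, h2, h3⟩ := hch
    have hcA : c ∉ A₀ := hc c (by simp)
    have hcB : c ∈ B := by
      rw [hw, List.mem_append] at h2
      exact h2.resolve_left hcA
    obtain ⟨B₂, hB⟩ := mem_split hcB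
    have hpre : pre w c = A₀ ++ pre B c := by
      rw [hw]
      exact pre_append hcA B
    have hz : ∀ z, A₀.count z = 1 → (pre w c).count z ≤ 1 → z ∉ pre B c := by
      intro z h4 h5
      rw [hpre, List.count_append] at h5
      exact List.count_eq_zero.1 (by omega)
    have hp' : ∀ z ∈ p, z ∉ pre B c := fun z hzp => hz z (hp z hzp) (h1 z hzp).le
    have hcs : ∀ z ∈ cs, c ∈ pre w z := fun z hzc => Chc.mem_pre h3 c (by simp) z hzc
    have hcs' : ∀ z ∈ cs, z ∉ pre B c := by
      intro z hzc h4
      refine pre_asymm (hcs z hzc) ?_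
      rw [hpre]
      exact List.mem_append_right _ h4
    have hne : ∀ z ∈ cs, z ≠ c := by
      rintro z hzc rfl
      exact not_mem_pre w z (hcs z hzc)
    have hdc : (pre w c).count d ≤ 1 := by
      cases k with
      | zero => exact (hk1 c (by simp)).le
      | succ k =>
        rcases hk : cs[k]? with _ | c'
        · have h4 : w.count d = 1 := hk2 (by simpa using hk)
          have h5 := count_pre_le w d c
          omega
        · have h4 : (pre w c').count d = 1 := hk1 c' (by simpa using hk)
          have h5 := count_pre_mono (hcs c' (List.mem_of_getElem? hk)) d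
          omega
    have hdB : d ∉ pre B c := hz d hd hdc
    have hdc' : d ≠ c := by
      rintro rfl
      exact hcA (List.count_pos_iff.1 (by omega))
    have hw' : w = (A₀ ++ pre B c ++ [c]) ++ B₂ := by
      rw [hw]
      conv_lhs => rw [hB]
      simp
    have hc1 : ∀ z ∈ [c], (A₀ ++ pre B c ++ [c]).count z = 1 := by
      intro z hzc
      rw [List.mem_singleton] at hzc
      subst hzc
      rw [List.count_append, List.count_append, List.count_eq_zero.2 hcA,
        List.count_eq_zero.2 (not_mem_pre B z)]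
      simp
    have hc2 : ∀ z ∈ cs, z ∉ A₀ ++ pre B c ++ [c] := by
      intro z hzc h4
      rw [List.mem_append, List.mem_append, List.mem_singleton] at h4
      rcases h4 with (h4 | h4) | h4
      · exact hc z (List.mem_cons_of_mem _ hzc) h4
      · exact hcs' z hzc h4
      · exact hne z hzc h4
    have hd1 : (A₀ ++ pre B c ++ [c]).count d = 1 := by
      rw [List.count_append, List.count_append, List.count_eq_zero.2 hdB, hd,
        List.count_eq_zero.2 (by simpa using hdc')]
    cases k with
    | zero =>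
      have h4 : Chb [c] cs B₂ := cvt cs [c] w _ B₂ hw' hc1 hc2 h3
      have h5 : ∃ B1 B2, B = B1 ++ c :: B2 ∧ (∀ z ∈ p, z ∉ B1) ∧ c ∉ B1 ∧
          (∀ z ∈ cs, z ∉ B1) ∧ d ∉ B1 ∧ Chb [c] cs B2 :=
        ⟨pre B c, B₂, hB, hp', not_mem_pre B c, hcs', hdB, h4⟩
      simpa only [Chd] using h5
    | succ k =>
      have h4 : Chd d k [c] cs B₂ := ih k d [c] w _ B₂ hw' hc1 hd1 hc2 h3
        (fun c' hc' => hk1 c' (by simpa using hc')) (fun hn => hk2 (by simpa using hn))
      have h5 : ∃ B1 B2, B = B1 ++ c :: B2 ∧ (∀ z ∈ p, z ∉ B1) ∧ c ∉ B1 ∧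
          (∀ z ∈ cs, z ∉ B1) ∧ d ∉ B1 ∧ Chd d k [c] cs B2 :=
        ⟨pre B c, B₂, hB, hp', not_mem_pre B c, hcs', hdB, h4⟩
      simpa only [Chd] using h5

end Pool.Agent.MWK.H98
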